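import Pool.Agent.TH300.FC.Dual

set_option autoImplicit false

/-!
# Even weights of small total deficiency

Graphs are finite, with loops and parallel edges allowed: `MGraph V E` is a graph with vertex set
`V` and edge set `E`, `G.deg D v` is the degree of `v` in the subgraph with edge set `D` (loops
count twice), and `G.IsCircuit C` says that `C` is the edge set of a connected 2-regular subgraph
(all from `Pool.Agent.H126R2.CDC.Defs`); `cut G X` is the set of the edges with exactly one end in
`X` (from `Pool.Agent.TH300.FC.Dual`).

Idea of the proof.  Put every edge `e` into `⌊w e / 2⌋` of `K` layers in a balanced way; then every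
layer misses at most `k` edges, so it is bridgeless and has a circuit double cover.
-/

namespace Pool.Agent.Results.MP_dba578_co.NearConstant

open Finset
open Pool.Agent.H126R2.CDC
open Pool.Agent.TH300.FC (cut cut_or_circuit finish sum_layers)

/-- balanced distribution of the deficiencies -/
lemma balance {E : Type} [DecidableEq E] (K : ℕ) (δ : E → ℕ) (hδ : ∀ e, δ e ≤ K)
    (s : Finset E) : ∃ (D : E → Finset (Fin K)) (q : ℕ), (∀ e ∈ s, (D e).card = δ e) ∧
      ∀ i, (s.filter (fun e => i ∈ D e)).card = q ∨ (s.filter (fun e => i ∈ D e)).card = q + 1 := by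
  induction s using Finset.induction_on with
  | empty => exact ⟨fun _ => ∅, 0, by simp, by simp⟩
  | insert e s he ih =>
    obtain ⟨D, q, hD, hq⟩ := ih
    have key : ∀ T : Finset (Fin K), T.card = δ e →
        (∃ q', ∀ i, (s.filter (fun e => i ∈ D e)).card + (if i ∈ T then 1 else 0) = q' ∨
          (s.filter (fun e => i ∈ D e)).card + (if i ∈ T then 1 else 0) = q' + 1) →
        ∃ (D : E → Finset (Fin K)) (q : ℕ), (∀ e' ∈ insert e s, (D e').card = δ e') ∧
          ∀ i, ((insert e s).filter (fun e => i ∈ D e)).card = q ∨
            ((insert e s).filter (fun e => i ∈ D e)).card = q + 1 := by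
      rintro T hT ⟨q', hq'⟩
      refine ⟨Function.update D e T, q', ?_, ?_⟩
      · intro f hf
        rcases Finset.mem_insert.1 hf with rfl | hf
        · rw [Function.update_self]; exact hT
        · have hfe : f ≠ e := fun h => he (h ▸ hf)
          rw [Function.update_of_ne hfe]
          exact hD f hf
      · intro i
        have h1 : ((insert e s).filter (fun f => i ∈ Function.update D e T f)).card =
            (s.filter (fun e => i ∈ D e)).card + (if i ∈ T then 1 else 0) := by
          have h2 : s.filter (fun f => i ∈ Function.update D e T f) =
              s.filter (fun f => i ∈ D f) := by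
            apply Finset.filter_congr
            intro f hf
            have hfe : f ≠ e := fun h => he (h ▸ hf)
            rw [Function.update_of_ne hfe]
          rw [Finset.filter_insert, Function.update_self, h2]
          by_cases hi : i ∈ T
          · rw [if_pos hi, if_pos hi, Finset.card_insert_of_notMem]
            intro h
            exact he (Finset.mem_filter.1 h).1
          · rw [if_neg hi, if_neg hi, add_zero]
        rw [h1]
        exact hq' i
    let A : Finset (Fin K) := univ.filter (fun i => (s.filter (fun e => i ∈ D e)).card = q)
    have hA : ∀ i, i ∈ A ↔ (s.filter (fun e => i ∈ D e)).card = q := by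
      intro i; simp [A]
    by_cases h : δ e ≤ A.card
    · obtain ⟨T, hT1, hT2⟩ := Finset.exists_subset_card_eq h
      apply key T hT2
      refine ⟨q, fun i => ?_⟩
      by_cases hi : i ∈ T
      · rw [if_pos hi]
        right
        rw [(hA i).1 (hT1 hi)]
      · rw [if_neg hi, add_zero]
        exact hq i
    · have h2 : δ e ≤ (univ : Finset (Fin K)).card := by
        rw [Finset.card_univ, Fintype.card_fin]; exact hδ e
      obtain ⟨T, hT1, _, hT3⟩ := Finset.exists_subsuperset_card_eq (Finset.subset_univ A)
        (le_of_not_ge h) h2
      apply key T hT3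
      refine ⟨q + 1, fun i => ?_⟩
      by_cases hi : i ∈ A
      · rw [if_pos (hT1 hi), (hA i).1 hi]
        left; rfl
      · have h3 : (s.filter (fun e => i ∈ D e)).card = q + 1 := by
          rcases hq i with h4 | h4
          · exact absurd ((hA i).2 h4) hi
          · exact h4
        rw [h3]
        by_cases hi' : i ∈ T
        · rw [if_pos hi']; right; rfl
        · rw [if_neg hi']; left; rfl

/-- Let `G` be a finite graph in which every nonempty edge cut has at least `k + 2` edges, and let
`w : E(G) → ℕ` be a weight with values at most `2 * K + 1` such that the edges of odd weight form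
an even subgraph and the sum over all edges of the deficiencies `K - ⌊w e / 2⌋` is at most
`k * K`. Then some finite family of circuits of `G`, repetitions allowed, covers every edge `e`
exactly `w e` times. -/
theorem result {V E : Type} [Fintype V] [DecidableEq V] [Fintype E] [DecidableEq E]
    (G : MGraph V E) (k K : ℕ)
    (hcut : ∀ X : Finset V, cut G X = ∅ ∨ k + 2 ≤ (cut G X).card)
    (w : E → ℕ)
    (hodd : ∀ v, Even (G.deg (univ.filter fun e => Odd (w e)) v))
    (hw : ∀ e, w e ≤ 2 * K + 1) (hsum : ∑ e, (K - w e / 2) ≤ k * K) :
    ∃ F : Multiset (Finset E), (∀ C ∈ F, G.IsCircuit C) ∧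
      ∀ e, F.countP (fun C => e ∈ C) = w e := by
  classical
  apply finish G w hodd
  obtain ⟨D, q, hD, hq⟩ := balance K (fun e => K - w e / 2) (fun e => Nat.sub_le _ _) univ
  have hload : ∀ i, (univ.filter (fun e => i ∈ D e)).card ≤ k := by
    intro i
    by_contra hcon
    push Not at hcon
    have hqk : k ≤ q := by
      rcases hq i with h | h <;> omega
    have h1 : ∑ _j : Fin K, k < ∑ j : Fin K, (univ.filter (fun e => j ∈ D e)).card := by
      apply Finset.sum_lt_sum
      · intro j _
        rcases hq j with h | h <;> omega
      · exact ⟨i, Finset.mem_univ i, hcon⟩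
    have h2 : ∑ j : Fin K, (univ.filter (fun e => j ∈ D e)).card = ∑ e, (D e).card := by
      have h3 : ∀ j ∈ (univ : Finset (Fin K)), (univ.filter (fun e => j ∈ D e)).card =
          ∑ e, if j ∈ D e then 1 else 0 := fun j _ => Finset.card_filter _ _
      rw [Finset.sum_congr rfl h3, Finset.sum_comm]
      apply Finset.sum_congr rfl
      intro e _
      rw [← Finset.card_filter, Finset.filter_mem_eq_inter, Finset.univ_inter]
    have h4 : ∑ e, (D e).card = ∑ e, (K - w e / 2) :=
      Finset.sum_congr rfl (fun e _ => hD e (Finset.mem_univ e))
    rw [h2, h4, Finset.sum_const, Finset.card_univ, Fintype.card_fin, smul_eq_mul,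
      mul_comm] at h1
    omega
  obtain ⟨F, hF1, hF2⟩ := sum_layers G (fun e => (D e)ᶜ) (by
    intro i e he
    have he' : i ∉ D e := Finset.mem_compl.1 he
    rcases cut_or_circuit G (univ.filter (fun f => i ∈ D f)) e (by simpa using he') with
      ⟨X, h1, h2⟩ | ⟨C, h1, h2, h3⟩
    · exfalso
      rcases hcut X with h | h
      · rw [h] at h1; exact absurd h1 (Finset.notMem_empty e)
      · have h3 : cut G X ⊆ insert e (univ.filter (fun f => i ∈ D f)) := by
          intro g hg
          rcases h2 g hg with h4 | h4
          · rw [h4]; exact Finset.mem_insert_self _ _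
          · exact Finset.mem_insert_of_mem h4
        have h5 := Finset.card_le_card h3
        have h6 := Finset.card_insert_le e (univ.filter (fun f => i ∈ D f))
        have h7 := hload i
        omega
    · refine ⟨C, h1, h2, fun f hf => ?_⟩
      rw [Finset.mem_compl]
      intro h4
      exact h3 f hf (by simpa using h4))
  refine ⟨F, hF1, fun e => ?_⟩
  rw [hF2 e, Finset.card_compl, Fintype.card_fin, hD e (Finset.mem_univ e)]
  have := hw e
  show 2 * (K - (K - w e / 2)) = 2 * (w e / 2)
  omega

end Pool.Agent.Results.MP_dba578_co.NearConstant
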